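import Pool.Agent.ASO.StmtsL

/-!
# Squad ASO, row KAR: the arithmetic part, transport to linear algebra
-/

open scoped BigOperators

noncomputable section

namespace Pool.Agent.PP.SO.H84

open Pool.Agent.PP.SO

section rep

variable {ℓ : ℕ} {V₀ V : Type} [CommGroup V₀] [AddCommGroup V] [Module (ZMod ℓ) V]

/-- the automorphisms as linear maps -/
def lr (a : Additive V₀ ≃+ V) (E₀ : Subgroup (MulAut V₀)) : E₀ →* Module.End (ZMod ℓ) V where
  toFun σ := AddMonoidHom.toZModLinearMap ℓ ((a.toAddMonoidHom.comp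
    (MonoidHom.toAdditive (MulEquiv.toMonoidHom (σ.1 : MulAut V₀)))).comp a.symm.toAddMonoidHom)
  map_one' := by
    ext v
    exact a.apply_symm_apply v
  map_mul' σ τ := by
    ext v
    show a (Additive.ofMul (σ.1 (τ.1 (Additive.toMul (a.symm v))))) =
      a (Additive.ofMul (σ.1 (Additive.toMul (a.symm (a (Additive.ofMul (τ.1 (Additive.toMul
        (a.symm v)))))))))
    rw [a.symm_apply_apply]
    rfl

theorem lr_apply (a : Additive V₀ ≃+ V) (E₀ : Subgroup (MulAut V₀)) (σ : E₀) (v : V) :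
    lr (ℓ := ℓ) a E₀ σ v = a (Additive.ofMul (σ.1 (Additive.toMul (a.symm v)))) := rfl

theorem toMul_symm_smul [Fact ℓ.Prime] (a : Additive V₀ ≃+ V) (j : ZMod ℓ) (v : V) :
    Additive.toMul (a.symm (j • v)) = Additive.toMul (a.symm v) ^ j.val := by
  conv_lhs => rw [← ZMod.natCast_zmod_val j]
  rw [Nat.cast_smul_eq_nsmul, map_nsmul, toMul_nsmul]

end rep

/-- a sum over the units is a sum over `Icc 1 (ℓ - 1)` -/
theorem sum_units (ℓ : ℕ) [Fact ℓ.Prime] {R : Type} [AddCommMonoid R] (f : ℕ → R) :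
    ∑ t : (ZMod ℓ)ˣ, f (t : ZMod ℓ).val = ∑ t ∈ Finset.Icc 1 (ℓ - 1), f t := by
  have hp : ℓ.Prime := Fact.out
  refine Finset.sum_bij' (i := fun t _ => (t : ZMod ℓ).val)
    (j := fun t ht => Units.mk0 ((t : ℕ) : ZMod ℓ) ?_) ?_ ?_ ?_ ?_ ?_
  · rw [Finset.mem_Icc] at ht
    intro h0
    rw [ZMod.natCast_eq_zero_iff] at h0
    have := Nat.le_of_dvd (by omega) h0
    have := hp.one_lt
    omega
  · intro t _
    rw [Finset.mem_Icc]
    have h1 := ZMod.val_lt (t : ZMod ℓ)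
    have h2 : (t : ZMod ℓ).val ≠ 0 := by
      rw [Ne, ZMod.val_eq_zero]
      exact t.ne_zero
    omega
  · intro t ht
    exact Finset.mem_univ _
  · intro t _
    ext
    simp
  · intro t ht
    rw [Finset.mem_Icc] at ht
    have := hp.one_lt
    simp only [Units.val_mk0]
    exact ZMod.val_cast_of_lt (by omega)
  · intro t _
    rfl

theorem core (hLIA : LIaStmt) (hKCP : KcpStmt) (ℓ : ℕ) [Fact ℓ.Prime] (h5 : 5 ≤ ℓ)
    (V₀ V : Type) [CommGroup V₀] [Finite V₀] [AddCommGroup V] [Module (ZMod ℓ) V] [Fintype V]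
    (a : Additive V₀ ≃+ V) (E₀ : Subgroup (MulAut V₀)) [Fintype E₀] (hFr : Fr ℓ V₀ E₀)
    (F : V₀ → ZMod ℓ) (N' : V₀ → V₀ → ZMod ℓ) (k' : ℤ)
    (hF1 : F 1 = 0) (hFp : ∀ (c : V₀) (j : ℕ), ¬ ℓ ∣ j → F (c ^ j) = F c)
    (hFe : ∀ σ ∈ E₀, ∀ c, F (σ c) = F c)
    (hFs : (∑ᶠ c : V₀, F c) = - ((Nat.card E₀ : ZMod ℓ) * k'))
    (hN1 : ∀ (ρ₁ ρ₂ : V₀ → ZMod ℓ), Hm ρ₁ → Hm ρ₂ → ∀ c d : V₀, c ≠ 1 → d ≠ 1 →
      N' c d * (ρ₁ c * ρ₂ d) = ∑ᶠ σ : E₀, F (c * σ.1 d) * (ρ₁ (c * σ.1 d) * ρ₂ (σ.1⁻¹ c * d)))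
    (hN2 : ∀ c d : V₀, c ≠ 1 → d ≠ 1 →
      ∑ t ∈ Finset.Icc 1 (ℓ - 1), ∑ s ∈ Finset.Icc 1 (ℓ - 1), N' (c ^ t) (d ^ s) =
        (Nat.card E₀ : ZMod ℓ) * (F c + F d) - (Nat.card E₀ : ZMod ℓ) ^ 2 * k') :
    (k' : ZMod ℓ) = 0 := by
  have hp : ℓ.Prime := Fact.out
  have hcard : Fintype.card E₀ = Nat.card E₀ := (Nat.card_eq_fintype_card).symm
  have hne : ∀ c : V, c ≠ 0 → Additive.toMul (a.symm c) ≠ 1 := by
    intro c hc h0
    apply hc
    apply a.symm.injective
    rw [map_zero]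
    exact h0
  have hLF : LF (lr a E₀) (fun v : V => F (Additive.toMul (a.symm v)))
      (Fintype.card E₀ * (k' : ZMod ℓ)) := by
    refine ⟨by omega, ?_, ?_, ?_, ?_, ?_, ?_⟩
    · have h1 := Module.natCard_eq_pow_finrank (K := ZMod ℓ) (V := V)
      have h2 : Nat.card V = ℓ ^ 2 := by
        rw [← hFr.cd]
        exact Nat.card_congr (a.symm.toEquiv.trans Additive.toMul)
      rw [h2, Nat.card_zmod] at h1
      exact (Nat.pow_right_injective hp.two_le h1).symm
    · rw [hcard, Ne, ZMod.natCast_eq_zero_iff]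
      exact hKCP ℓ V₀ E₀ hFr
    · show F (Additive.toMul (a.symm 0)) = 0
      rw [map_zero]
      exact hF1
    · intro j v hj
      show F (Additive.toMul (a.symm (j • v))) = F (Additive.toMul (a.symm v))
      rw [toMul_symm_smul]
      apply hFp
      intro hd
      apply hj
      have h1 := ZMod.val_lt j
      rw [← ZMod.val_eq_zero]
      exact Nat.eq_zero_of_dvd_of_lt hd h1
    · intro e v
      show F (Additive.toMul (a.symm (lr a E₀ e v))) = _
      rw [lr_apply, a.symm_apply_apply]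
      exact hFe e.1 e.2 _
    · rw [hcard, ← hFs]
      let : Fintype V₀ := Fintype.ofFinite V₀
      rw [finsum_eq_sum_of_fintype]
      exact Fintype.sum_equiv (a.symm.toEquiv.trans Additive.toMul) _ _ (fun _ => rfl)
  have hLN : LN (lr a E₀) (fun v : V => F (Additive.toMul (a.symm v)))
      (fun v w => N' (Additive.toMul (a.symm v)) (Additive.toMul (a.symm w)))
      (k' : ZMod ℓ) := by
    refine ⟨?_, ?_⟩
    · intro φ ψ c d hc hd
      have h1 := hN1 (fun v => φ (a (Additive.ofMul v))) (fun v => ψ (a (Additive.ofMul v)))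
        (fun v w => by
          show φ (a (Additive.ofMul (v * w))) = _
          rw [ofMul_mul, map_add, map_add]) (fun v w => by
          show ψ (a (Additive.ofMul (v * w))) = _
          rw [ofMul_mul, map_add, map_add])
        (Additive.toMul (a.symm c)) (Additive.toMul (a.symm d)) (hne c hc) (hne d hd)
      rw [finsum_eq_sum_of_fintype] at h1
      have h2 : ∀ v : V, a (Additive.ofMul (Additive.toMul (a.symm v))) = v := fun v =>
        a.apply_symm_apply v
      rw [h2, h2] at h1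
      show N' (Additive.toMul (a.symm c)) (Additive.toMul (a.symm d)) * (φ c * ψ d) = _
      rw [h1]
      refine Finset.sum_congr rfl fun e _ => ?_
      have h3 : Additive.toMul (a.symm (c + lr (ℓ := ℓ) a E₀ e d)) =
          Additive.toMul (a.symm c) * e.1 (Additive.toMul (a.symm d)) := by
        rw [map_add, lr_apply, a.symm_apply_apply]
        rfl
      have h4 : Additive.toMul (a.symm (lr (ℓ := ℓ) a E₀ e⁻¹ c + d)) =
          e.1⁻¹ (Additive.toMul (a.symm c)) * Additive.toMul (a.symm d) := by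
        rw [map_add, lr_apply, a.symm_apply_apply]
        rfl
      rw [← h3, ← h4, h2, h2]
    · intro c d hc hd
      have h1 := hN2 _ _ (hne c hc) (hne d hd)
      rw [hcard]
      show _ = (Nat.card E₀ : ZMod ℓ) * (F (Additive.toMul (a.symm c)) +
        F (Additive.toMul (a.symm d))) - (Nat.card E₀ : ZMod ℓ) ^ 2 * k'
      rw [← h1, ← sum_units ℓ]
      refine Finset.sum_congr rfl fun t _ => ?_
      rw [← sum_units ℓ]
      refine Finset.sum_congr rfl fun s _ => ?_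
      show N' (Additive.toMul (a.symm ((t : ZMod ℓ) • c)))
        (Additive.toMul (a.symm ((s : ZMod ℓ) • d))) = _
      rw [toMul_symm_smul, toMul_symm_smul]
  exact hLIA ℓ V E₀ (lr a E₀) _ _ _ hLF hLN

theorem kar (hKM2 : Km2Stmt) (hLIA : LIaStmt) (hKCP : KcpStmt) : KarStmt := by
  intro ℓ _ h5 V₀ _ _ E₀ hFr D N k hKD
  obtain ⟨F, N', k', hk, hF1, hFp, hFe, hFs, hN1, hN2⟩ := hKM2 ℓ h5 V₀ E₀ hFr D N k hKD
  have hex : ∀ x : Additive V₀, ℓ • x = 0 := fun x => by
    have := hFr.ex (Additive.toMul x)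
    apply Additive.toMul.injective
    rw [toMul_nsmul, this]
    rfl
  have hfin : Finite (MulAut V₀) := by
    apply Finite.of_injective (fun σ : MulAut V₀ => (σ : V₀ → V₀))
    exact DFunLike.coe_injective
  have h0 := @core hLIA hKCP ℓ _ h5 V₀ (Additive V₀) _ _ _ (AddCommGroup.zmodModule hex)
    (Fintype.ofFinite _) (AddEquiv.refl _) E₀ (Fintype.ofFinite _) hFr F N' k' hF1 hFp hFe hFs hN1
    hN2
  rw [ZMod.intCast_zmod_eq_zero_iff_dvd] at h0
  obtain ⟨m, rfl⟩ := h0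
  rw [hk]
  refine ⟨m, ?_⟩
  push_cast
  ring

end Pool.Agent.PP.SO.H84
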